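import Mathlib
import Pool.Agent.Lib.MP_86e52e_an.Space

set_option autoImplicit false

open Filter Topology

namespace Pool.Agent.Results.MP_86e52e_an.Exists

/-- `q` is a complete quasi-norm on the vector space `X`. -/
def IsQuasiBanach (𝕜 : Type) {X : Type} [RCLike 𝕜] [AddCommGroup X] [Module 𝕜 X]
    (q : X → ℝ) : Prop :=
  (∀ x, 0 ≤ q x) ∧ (∀ x, q x = 0 → x = 0) ∧ (∀ (c : 𝕜) x, q (c • x) = ‖c‖ * q x) ∧
  (∃ κ : ℝ, ∀ x y, q (x + y) ≤ κ * (q x + q y)) ∧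
  ∀ u : ℕ → X, (∀ ε : ℝ, 0 < ε → ∃ N, ∀ m, N ≤ m → ∀ n, N ≤ n → q (u m - u n) < ε) →
    ∃ x, Tendsto (fun n => q (u n - x)) atTop (𝓝 0)

/-- The Schur `p`-property of `(X, q)`. -/
def HasSchur (𝕜 : Type) {X : Type} [RCLike 𝕜] [AddCommGroup X] [Module 𝕜 X]
    (p : ℝ) (q : X → ℝ) : Prop :=
  ∀ A : Set X, A.Infinite → (∃ M : ℝ, ∀ x ∈ A, q x ≤ M) →
    (∃ δ : ℝ, 0 < δ ∧ ∀ x ∈ A, ∀ y ∈ A, x ≠ y → δ ≤ q (x - y)) →
    ∃ B : Set X, B ⊆ A ∧ B.Infinite ∧ ∃ c C : ℝ, 0 < c ∧ c ≤ C ∧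
      ∀ (F : Finset X), (F : Set X) ⊆ B → ∀ a : X → 𝕜,
        c * (∑ x ∈ F, ‖a x‖ ^ p) ^ (1 / p) ≤ q (∑ x ∈ F, a x • x) ∧
        q (∑ x ∈ F, a x • x) ≤ C * (∑ x ∈ F, ‖a x‖ ^ p) ^ (1 / p)

/-- Every continuous linear functional on `(X, q)` is zero. -/
def HasTrivialDual (𝕜 : Type) {X : Type} [RCLike 𝕜] [AddCommGroup X] [Module 𝕜 X]
    (q : X → ℝ) : Prop :=
  ∀ φ : X →ₗ[𝕜] 𝕜,
    (∀ x, ∀ ε : ℝ, 0 < ε → ∃ δ : ℝ, 0 < δ ∧ ∀ y, q (y - x) < δ → ‖φ y - φ x‖ < ε) → φ = 0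

open Pool.Agent.Lib.MP_86e52e_an in
/-- For `0 < p < 1` there is a nonzero quasi-Banach space, over the real or the complex
numbers, with the Schur `p`-property and trivial dual. -/
theorem result (𝕜 : Type) [RCLike 𝕜] (p : ℝ) (hp0 : 0 < p) (hp1 : p < 1) :
    ∃ (X : Type) (_ : AddCommGroup X) (_ : Module 𝕜 X) (q : X → ℝ),
      IsQuasiBanach 𝕜 q ∧ Nontrivial X ∧ HasSchur 𝕜 p q ∧ HasTrivialDual 𝕜 q := by
  classical
  have : Fact (0 < p) := ⟨hp0⟩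
  have : Fact (p ≤ 1) := ⟨hp1.le⟩
  have hip : 0 < 1 / p := by positivity
  have hpow : ∀ t : ℝ, 0 ≤ t → (t ^ p) ^ (1 / p) = t := fun t ht => by
    rw [one_div, Real.rpow_rpow_inv ht hp0.ne']
  have hpow' : ∀ t : ℝ, 0 ≤ t → (t ^ (1 / p)) ^ p = t := fun t ht => by
    rw [one_div, Real.rpow_inv_rpow ht hp0.ne']
  refine ⟨XX 𝕜 p, inferInstance, inferInstance, fun x => ‖x‖ ^ (1 / p),
    ⟨fun x => by positivity, fun x hx => ?_, fun c x => ?_, ⟨2 ^ (1 / p), fun x y => ?_⟩,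
      fun u hu => ?_⟩, nontrivial_X, ?_, fun φ hφ => ?_⟩
  · exact norm_eq_zero.mp ((Real.rpow_eq_zero (norm_nonneg x) hip.ne').mp hx)
  · simp only
    rw [norm_smul_X, Real.mul_rpow (by positivity) (norm_nonneg _), hpow _ (norm_nonneg _)]
  · simp only
    have hx : 0 ≤ ‖x‖ ^ (1 / p) := by positivity
    have hy : 0 ≤ ‖y‖ ^ (1 / p) := by positivity
    have h2 : (0 : ℝ) ≤ 2 ^ (1 / p) := by positivity
    rcases le_total ‖x‖ ‖y‖ with h | h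
    · have h3 : ‖x + y‖ ≤ 2 * ‖y‖ := by linarith [norm_add_le x y]
      have h4 := Real.rpow_le_rpow (norm_nonneg _) h3 hip.le
      rw [Real.mul_rpow (by norm_num) (norm_nonneg _)] at h4
      nlinarith
    · have h3 : ‖x + y‖ ≤ 2 * ‖x‖ := by linarith [norm_add_le x y]
      have h4 := Real.rpow_le_rpow (norm_nonneg _) h3 hip.le
      rw [Real.mul_rpow (by norm_num) (norm_nonneg _)] at h4
      nlinarith
  · have hc : CauchySeq u := by
      rw [Metric.cauchySeq_iff]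
      intro ε hε
      obtain ⟨N, hN⟩ := hu (ε ^ (1 / p)) (by positivity)
      refine ⟨N, fun m hm n hn => ?_⟩
      rw [dist_eq_norm]
      exact (Real.rpow_lt_rpow_iff (norm_nonneg _) hε.le hip).mp (hN m hm n hn)
    obtain ⟨x, hx⟩ := cauchySeq_tendsto_of_complete hc
    refine ⟨x, ?_⟩
    have h1 := (tendsto_iff_norm_sub_tendsto_zero.mp hx).rpow_const (Or.inr hip.le)
    rwa [Real.zero_rpow hip.ne'] at h1
  · rintro A hA ⟨M, hM⟩ ⟨δ, hδ, hsep⟩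
    obtain ⟨x₀, hx₀⟩ := hA.nonempty
    have hM0 : 0 ≤ M := le_trans (by positivity) (hM x₀ hx₀)
    have hM' : ∀ x ∈ A, ‖x‖ ≤ M ^ p := fun x hx => by
      rw [← hpow' _ (norm_nonneg x)]
      exact Real.rpow_le_rpow (by positivity) (hM x hx) hp0.le
    have hsep' : ∀ x ∈ A, ∀ y ∈ A, x ≠ y → δ ^ p ≤ ‖x - y‖ := fun x hx y hy hxy => by
      rw [← hpow' _ (norm_nonneg (x - y))]
      exact Real.rpow_le_rpow hδ.le (hsep x hx y hy hxy) hp0.le
    obtain ⟨u, hu, huA, hlow⟩ := (fam (𝕜 := 𝕜) (p := p)).hump A hA (M ^ p) (δ ^ p)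
      (by positivity) hM' hsep'
    refine ⟨Set.range u, Set.range_subset_iff.mpr huA, Set.infinite_range_of_injective hu,
      (δ ^ p / 8) ^ (1 / p), max ((δ ^ p / 8) ^ (1 / p)) M, by positivity, le_max_left _ _,
      fun F hF a => ?_⟩
    obtain ⟨G, rfl⟩ := Finset.subset_set_image_iff.mp
      (show (F : Set (XX 𝕜 p)) ⊆ u '' Set.univ by rwa [Set.image_univ]) |>.imp fun _ h => h.2
    rw [Finset.sum_image hu.injOn, Finset.sum_image hu.injOn]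
    have hS : 0 ≤ ∑ i ∈ G, ‖a (u i)‖ ^ p := by positivity
    constructor
    · rw [← Real.mul_rpow (by positivity) hS]
      exact Real.rpow_le_rpow (by positivity) (hlow G fun i => a (u i)) hip.le
    · have h1 := (fam (𝕜 := 𝕜) (p := p)).n_sum_le G (fun i => a (u i)) u
      have h2 : ∑ i ∈ G, ‖a (u i)‖ ^ p * ‖u i‖ ≤ M ^ p * ∑ i ∈ G, ‖a (u i)‖ ^ p := by
        rw [Finset.mul_sum]
        refine Finset.sum_le_sum fun i _ => ?_
        rw [mul_comm]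
        exact mul_le_mul_of_nonneg_right (hM' _ (huA i)) (by positivity)
      have h3 := Real.rpow_le_rpow (norm_nonneg _) (h1.trans h2) hip.le
      rw [Real.mul_rpow (by positivity) hS, hpow _ hM0] at h3
      exact h3.trans (mul_le_mul_of_nonneg_right (le_max_right _ _) (by positivity))
  · obtain ⟨δ, hδ, h⟩ := hφ 0 1 one_pos
    exact dual_trivial hp1 φ δ hδ fun x hx => by simpa using h x (by simpa using hx)

end Pool.Agent.Results.MP_86e52e_an.Exists
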